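import Pool.Agent.N770.Logs
import Pool.Agent.Run7.h577.T28

/-!
# Pairs of linear forms in logarithms on curves of bounded degree

Let `λ_1, ..., λ_n` be logarithms of algebraic numbers and let `V` be the space of the linear forms
in `1, λ_1, ..., λ_n` with algebraic coefficients. We consider the pairs `u, v ∈ V` which satisfy a
nonzero polynomial relation `P(u, v) = 0` of degree at most `D` over `ℚ̄`, except those for which
`u` and `v` are polynomials of degree at most `D`, with algebraic coefficients, in one number. We
prove that all these pairs lie in at most `C(n, D)` subspaces `W` of `V` with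
`⌊(dim W) ^ 2 / 4⌋ ≤ D`. By the theorem of Baker, `W` contains at most `dim W - 1` logarithms of
algebraic numbers which are linearly independent over `ℚ`. The number of the subspaces is bounded
by a constant which depends only on `n` and `D`. For `D ≤ 3` the `W` are planes `⟨1, u, v⟩`.

The proof. One may specialise the algebra generated by `V` to functions on a curve `C` over
`k = ℚ̄` (`T15`). If the pairs `(u, v)` do not lie in finitely many such spaces, then there is a
point of an ultraproduct: an algebraically closed field `K` over `k` and an exceptional pair over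
`K`. Let `V'` be the smallest subspace of `V`, defined over `k`, with `u, v ∈ V'_K`. The points at
infinity of the projective curve given by `V'` are defined over `k`, so that `u` or `v` has a pole
there and `V'` is bounded by almost all combinations `u + t v` (`T11`). The derivations of `K` over
`k` act on `K(C)`. If one of them does not map the field `F = K(u, v)` to itself, then its
composition with the projection to a complement, multiplied with a logarithmic differential of `F`
given by a duality argument (`T5`), is a nonzero regular function with a zero at infinity; here one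
uses that derivations preserve integral closures (Seidenberg, `T8`) and a lemma on traces (`T1`,
`T2`). This is impossible unless `F` has no such differentials, in which case `F = K(y)` and
`u, v ∈ K[y]` (`T6`). So `F` is stable under all derivations, hence defined over `k`, and `V' ⊆ F`
by minimality. As `[F : K(u + t v)] ≤ D` we get `dim V' ^ m ≤ m D + 1` for all `m` (`T9`), but
`dim V' ^ (m + 1) ≥ dim V' ^ m + ⌊(dim V') ^ 2 / 4⌋` by the hyperplane theorem for logarithms. The
uniformity in the logarithms follows from a second ultraproduct (`T27`, `T28`).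
-/

set_option autoImplicit false

namespace Pool.Agent.Results.MP_60829e_nt.CurvesUniform

open Module

/-- `u` and `v` satisfy a nonzero polynomial relation, with algebraic coefficients, of total degree
at most `D` -/
def Dependent (D : ℕ) (u v : ℂ) : Prop :=
  ∃ P : MvPolynomial (Fin 2) (algebraicClosure ℚ ℂ), P ≠ 0 ∧ P.totalDegree ≤ D ∧
    MvPolynomial.aeval ![u, v] P = 0

/-- `u` and `v` are polynomials, of degree at most `D` and with algebraic coefficients, in one
number -/
def Parametrised (D : ℕ) (u v : ℂ) : Prop :=
  ∃ (y : ℂ) (p q : Polynomial (algebraicClosure ℚ ℂ)), u = Polynomial.aeval y p ∧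
    v = Polynomial.aeval y q ∧ p.natDegree ≤ D ∧ q.natDegree ≤ D

/-- The linear combinations of `1` and the `l i` with algebraic coefficients. -/
noncomputable def Forms {n : ℕ} (l : Fin n → ℂ) : Submodule (algebraicClosure ℚ ℂ) ℂ :=
  Submodule.span (algebraicClosure ℚ ℂ) ({1} ∪ Set.range l)

/-- **Main result.** -/
theorem result (n D : ℕ) : ∃ C : ℕ, ∀ l : Fin n → ℂ, (∀ i, IsAlgebraic ℚ (Complex.exp (l i))) →
    ∃ 𝒲 : Set (Submodule (algebraicClosure ℚ ℂ) ℂ), 𝒲.Finite ∧ 𝒲.ncard ≤ C ∧
      (∀ W ∈ 𝒲, W ≤ Forms l ∧ 1 ∈ W ∧
        Module.finrank (algebraicClosure ℚ ℂ) W ^ 2 / 4 ≤ D ∧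
        ∀ (r : ℕ) (y : Fin r → ℂ), (∀ i, y i ∈ W) → (∀ i, IsAlgebraic ℚ (Complex.exp (y i))) →
          LinearIndependent ℚ y → (r + 1) ^ 2 / 4 ≤ D) ∧
      ∀ u ∈ Forms l, ∀ v ∈ Forms l, Dependent D u v → ¬ Parametrised D u v →
        ∃ W ∈ 𝒲, u ∈ W ∧ v ∈ W := by
  classical
  have hac : IsAlgClosed (algebraicClosure ℚ ℂ) := Pool.Agent.N770.isAlgClosed_QB
  obtain ⟨C, hC⟩ := Run7.h577.cover_uniform Pool.Agent.H301R2.SSE.Lt Pool.Agent.N770.grows_Lt
    Pool.Agent.H301R2.SSE.Lt_one n D
  refine ⟨C, ?_⟩
  intro l halg
  obtain ⟨W, hW, hcov⟩ := hC l (fun i => Pool.Agent.H301R2.SSE.Lt_log (halg i))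
  have hspan : Submodule.span (algebraicClosure ℚ ℂ)
      (Set.range (Fin.cons 1 l : Fin (n + 1) → ℂ)) = Forms l := by
    rw [Forms, Fin.range_cons, ← Set.singleton_union]
  rw [hspan] at hW hcov
  have hfd : FiniteDimensional (algebraicClosure ℚ ℂ) (Forms l) :=
    FiniteDimensional.span_of_finite _ ((Set.finite_singleton _).union (Set.finite_range l))
  refine ⟨Set.range W, Set.finite_range W, ?_, ?_, ?_⟩
  · rw [← Set.image_univ]
    have h1 := Set.ncard_image_le (f := W) (s := Set.univ) Set.finite_univ
    rwa [Set.ncard_univ, Nat.card_fin] at h1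
  · rintro _ ⟨c, rfl⟩
    obtain ⟨h2, h3, h5⟩ := hW c
    refine ⟨h2, h3, h5, ?_⟩
    intro r y hyW hy hyli
    have hWfd : FiniteDimensional (algebraicClosure ℚ ℂ) (W c) :=
      Submodule.finiteDimensional_of_le h2
    refine le_trans ?_ h5
    apply Nat.div_le_div_right
    apply Nat.pow_le_pow_left
    have hcons := Pool.Agent.N770.li_cons y hy hyli
    have hmem : ∀ i, (Fin.cons 1 y : Fin (r + 1) → ℂ) i ∈ W c := by
      intro i
      refine Fin.cases ?_ (fun i => ?_) i
      · exact h3
      · rw [Fin.cons_succ]
        exact hyW i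
    have h6 : LinearIndependent (algebraicClosure ℚ ℂ) (fun i => (⟨_, hmem i⟩ : W c)) :=
      LinearIndependent.of_comp (W c).subtype hcons
    have h7 := h6.fintype_card_le_finrank
    rwa [Fintype.card_fin] at h7
  · intro u hu v hv hD hP
    obtain ⟨c, hc⟩ := hcov u hu v hv hD (by
      rintro ⟨y, -, p, q, h1, h2, h3, h4⟩
      exact hP ⟨y, p, q, h1, h2, h3, h4⟩)
    exact ⟨W c, ⟨c, rfl⟩, hc⟩

end Pool.Agent.Results.MP_60829e_nt.CurvesUniform
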