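import Pool.Agent.N770.Logs
import Pool.Agent.N770.DirLogs
import Pool.Agent.Run7.h577.T33

/-!
# Few pairs of combinations of given logarithms are dependent in bounded degree

Let `λ_1, ..., λ_n` be logarithms of algebraic numbers which are linearly independent over `ℚ`, let
`D < ⌊(n + 1) ^ 2 / 4⌋` be a natural number and `X` a finite set of algebraic numbers. Consider the
`|X| ^ (2 n)` pairs `u = a_1 λ_1 + ... + a_n λ_n`, `v = b_1 λ_1 + ... + b_n λ_n` with `a_i, b_i ∈ X`.
If `a` and `b` are linearly independent then `u` and `v` should be algebraically independent. We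
prove that at most `C |X| ^ e` of these pairs satisfy a nonzero polynomial relation of degree at most
`D` over the algebraic numbers, where `e` is the smaller one of `2 D` (which does not depend on the
number `n` of the logarithms) and `n + w - 2`, where `w = ⌊√(4 D + 3)⌋ ≤ n` is the largest
integer with `⌊w ^ 2 / 4⌋ ≤ D`. The constant `C` depends only on `n` and `D`.

The proof. Suppose that, for a fixed choice of `e + 1` of the `2 n` coordinates, these coordinates
of the exceptional pairs satisfy no nonzero polynomial equation. We specialise the algebra generated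
by the logarithms to functions on a curve `C` over `k = ℚ̄` (`T15`), and take a point of an
ultraproduct: an algebraically closed field `K` over `k` and an exceptional pair `(u, v)` over `K`,
`e + 1` coordinates of which are algebraically independent over `k`. The derivations of `K` over
`k` act on `K(C)`.

* If `K(u, v)` is stable under all of them, then it is defined over `k`, and `u, v` lie in a space
  `W` defined over `k` with `dim W ^ m ≤ m D + 1` for all `m`. By the hyperplane theorem for
  logarithms `⌊(dim W) ^ 2 / 4⌋ ≤ D`, so that `(u, v)` has at most `2 (dim W - 1) ≤ e` parameters.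
* Otherwise, by the theorem on the points at infinity (`T11`), a duality argument with logarithmic
  differentials (`T5`) and the theorem of Seidenberg on derivations (`T8`), `K(u, v)` has a single
  point at infinity and no differentials, and `u = r(y)`, `v = s(y)` with polynomials `r, s` of
  degree at most `D` (`T6`, `T17`, `T18`). These have `2 D` nonconstant coefficients. A combination
  of derivations which moves these coefficients only by an affine change of `y` gives, up to
  constants, `(∂ u, ∂ v) = (r'(y) η, s'(y) η)`, and `2 D + 1` parameters give three independent such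
  pairs (`T23`). This contradicts the strong six exponentials theorem (`T24`). On the other hand, the
  space of the forms over `K` in `K(u, v)` has a dimension `w' ≤ w` (`T30`, `T32`). The derivations
  which map `u` and then also `v` to this space have at most `2 (w' - 1)` parameters, and the others
  at most `n - w'` more, since otherwise the multiplication by `s'(y) / r'(y)` would map the space of
  all forms modulo `K(u, v)` to itself (`T29`, `T31`).

The uniformity in the logarithms follows from a second ultraproduct (`T27`, `T28`, `T33`).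
-/

set_option autoImplicit false

namespace Pool.Agent.Results.MP_60829e_nt.FewDependentPairs

open Module

/-- `u` and `v` satisfy a nonzero polynomial relation, with algebraic coefficients, of total degree
at most `D` -/
def Dependent (D : ℕ) (u v : ℂ) : Prop :=
  ∃ P : MvPolynomial (Fin 2) (algebraicClosure ℚ ℂ), P ≠ 0 ∧ P.totalDegree ≤ D ∧
    MvPolynomial.aeval ![u, v] P = 0

/-- **Main result.** -/
theorem result (n D : ℕ) (hD : D < (n + 1) ^ 2 / 4) :
    ∃ C : ℕ, ∀ l : Fin n → ℂ, (∀ i, IsAlgebraic ℚ (Complex.exp (l i))) →
      LinearIndependent ℚ l → ∀ X : Finset (algebraicClosure ℚ ℂ),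
        {A : Fin 2 → Fin n → algebraicClosure ℚ ℂ | (∀ i j, A i j ∈ X) ∧
          LinearIndependent (algebraicClosure ℚ ℂ) A ∧
          Dependent D (∑ j, A 0 j • l j) (∑ j, A 1 j • l j)}.ncard ≤
        C * X.card ^ min (2 * D) (n + Nat.sqrt (4 * D + 3) - 2) := by
  classical
  have hac : IsAlgClosed (algebraicClosure ℚ ℂ) := Pool.Agent.N770.isAlgClosed_QB
  set c : ℕ := min (2 * D) (n + Nat.sqrt (4 * D + 3) - 2) with hc
  have hR : 2 * D < c + 1 ∨ n + Nat.sqrt (4 * D + 3) - 2 < c + 1 := by
    omega
  choose B hB using fun σ : Fin (c + 1) → Fin 2 × Fin n =>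
    Run7.h577.few_uniform2 Pool.Agent.H301R2.SSE.Lt Pool.Agent.N770.grows_Lt
      Pool.Agent.H301R2.SSE.Lt_one Pool.Agent.N770.sixExp_Lt n D
      (Run7.h577.sqrt_le_of_lt hD) (c + 1) hR σ
  set B₀ : ℕ := Finset.univ.sup B with hB₀
  refine ⟨(B₀ + 1) ^ (2 * n), ?_⟩
  intro l halg hli X
  have hrows : ∀ A : Fin 2 → Fin n → algebraicClosure ℚ ℂ,
      LinearIndependent (algebraicClosure ℚ ℂ) A →
      Run7.h577.RowsLI (fun s : Fin 2 × Fin n => A s.1 s.2) := by
    intro A hA α β h
    have h1 := Fintype.linearIndependent_iff.mp hA ![α, β] (by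
      rw [Fin.sum_univ_two]
      funext j
      exact h j)
    exact ⟨h1 0, h1 1⟩
  by_cases hX : X.Nonempty
  swap
  · -- there are no pairs
    have hempty : {A : Fin 2 → Fin n → algebraicClosure ℚ ℂ | (∀ i j, A i j ∈ X) ∧
        LinearIndependent (algebraicClosure ℚ ℂ) A ∧
        Dependent D (∑ j, A 0 j • l j) (∑ j, A 1 j • l j)} = ∅ := by
      rw [Set.eq_empty_iff_forall_notMem]
      rintro A ⟨h1, h2, -⟩
      rcases Nat.eq_zero_or_pos n with rfl | hn
      · exact h2.ne_zero 0 (funext fun j => j.elim0)
      · exact hX ⟨_, h1 0 ⟨0, hn⟩⟩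
    rw [hempty, Set.ncard_empty]
    exact Nat.zero_le _
  let e : Fin 2 × Fin n ≃ Fin (2 * n) := finProdFinEquiv
  let E : Set (Fin (2 * n) → algebraicClosure ℚ ℂ) :=
    {a | Run7.h577.RowsLI (a ∘ e) ∧ Run7.h577.Rel (algebraicClosure ℚ ℂ) D
      (∑ j, a (e (0, j)) • l j) (∑ j, a (e (1, j)) • l j)}
  have hE : Run7.h577.DimLt B₀ (c + 1) E := by
    intro σ _
    obtain ⟨f, hf0, hfB, hf⟩ := hB (e.symm ∘ σ) l
      (fun j => Pool.Agent.H301R2.SSE.Lt_log (halg j)) (Pool.Agent.N770.li_cons l halg hli)
    refine ⟨f, hf0, hfB.trans (Finset.le_sup (Finset.mem_univ _)), ?_⟩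
    rintro a ⟨ha1, ha2⟩
    have h1 := hf (a ∘ e) ha1 ha2
    have h2 : (a ∘ e) ∘ e.symm ∘ σ = a ∘ σ := by
      funext t
      simp only [Function.comp_apply, Equiv.apply_symm_apply]
    rwa [h2] at h1
  refine le_trans ?_ (Run7.h577.card_grid B₀ X hX (2 * n) c E hE)
  let F : (Fin 2 → Fin n → algebraicClosure ℚ ℂ) → (Fin (2 * n) → algebraicClosure ℚ ℂ) :=
    fun A i => A (e.symm i).1 (e.symm i).2
  have hF : Function.Injective F := by
    intro A A' h
    funext i j
    have h1 := congrFun h (e (i, j))
    simp only [F, Equiv.symm_apply_apply] at h1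
    exact h1
  rw [← Set.ncard_image_of_injective _ hF, ← Set.ncard_coe_finset]
  apply Set.ncard_le_ncard _ (Finset.finite_toSet _)
  rintro _ ⟨A, ⟨h1, h2, h3⟩, rfl⟩
  rw [Finset.mem_coe, Run7.h577.mem_grid]
  refine ⟨fun i => h1 _ _, ?_, ?_⟩
  · have h4 : F A ∘ e = fun s : Fin 2 × Fin n => A s.1 s.2 := by
      funext s
      simp only [F, Function.comp_apply, Equiv.symm_apply_apply]
    rw [h4]
    exact hrows A h2
  · have h4 : ∀ s, F A (e s) = A s.1 s.2 := by
      intro s
      simp only [F, Equiv.symm_apply_apply]
    simp only [h4]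
    exact h3

end Pool.Agent.Results.MP_60829e_nt.FewDependentPairs
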