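import Mathlib
import Pool.Agent.Run7.h643.IS.Logs

/-!
# Infinite sets of primes and of algebraic numbers whose logarithms satisfy no relations of bounded degree

* For every `d` there is a set of primes which contains arbitrarily long sequences of consecutive primes such that no
  nonzero polynomial of degree `≤ d` with coefficients in a number field of degree `≤ d` (no bound on the number of the
  variables, no bound on the height of the coefficients) vanishes at logarithms of different primes of the set.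
* More generally let `w_1, …, w_q` be arbitrary complex numbers and let `b_0, b_1, …` be natural numbers. There are
  numbers `C_J` (depending on `q, d, m, A` and the `b_i` only) such that the following holds. Let `B_J`, `J = 0, 1, …`, be any sets
  of `b_J` algebraic numbers `ξ_J + β`, where `ξ_J` has degree `≤ m` and height `≤ |ξ_J| ^ A` and the `β ≠ 0` have degree
  `≤ d` and height `≤ H_J`, and let `δ_J` be degrees with `|ξ_J| ≥ (H_J + 2) ^ ((δ_J + 2) ^ C_J)`. After removing at most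
  `q + 3 + b_0 + … + b_(J-1)` numbers from every `B_J` (a proportion which tends to `0` if the `b_J` grow fast) the
  logarithms of all the remaining numbers are free in growing degree over the constants `w`: the relations of degree `≤ D`
  with coefficients in number fields of degree `≤ D` between `w` and the logarithms are identities in the logarithms of
  all the elements of the `B_J`, `J ≥ j₀`, if `D ≤ δ_J` for all `J ≥ j₀`. If the `δ_J` tend to infinity then for every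
  `D` this applies to all but finitely many elements of the same set. If all `δ_J ≥ D` then the logarithms of the whole
  infinite set satisfy no relations of degree `≤ D` except for the relations between the constants.
* The same holds for `r_J` consecutive primes in intervals `(N_J, N_J + L_J]` for all `N_J` in infinite sets `M_J`, where
  the lengths `L_J` and the sets `M_J` depend on `q` and the `r_i` only.
-/

set_option autoImplicit false

namespace Pool.Agent.Results.MP_60829e_nt.InfiniteSetsOfPrimes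

open MvPolynomial Module

/-- `z` is a root of a nonzero polynomial with integral coefficients of absolute value at most `X`, of degree at most
`m`. -/
def IsBounded (m : ℕ) (X : ℝ) (z : ℂ) : Prop :=
  ∃ p : Polynomial ℤ, p ≠ 0 ∧ p.natDegree ≤ m ∧ (∀ j, |(p.coeff j : ℝ)| ≤ X) ∧ Polynomial.aeval z p = 0

/-- **Freedom in growing degree** of the logarithms of the elements of the sets `a 0, a 1, …` over the constants `w`: if
`D ≤ δ J` for all `J ≥ j₀` then every relation `P (w, x) = 0` of degree `≤ D` with coefficients in a number field of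
degree `≤ D`, between the constants `w` and logarithms `x n` (of any branches) of the elements `n` of the sets, is an
identity in the `x n`, `n` in `a J`, `J ≥ j₀`. For `j₀ = 0` it is an identity in all the variables `x n`. Here `val n` is
the element `n` as a complex number. -/
def Free {E : Type} (val : E → ℂ) {q : ℕ} (w : Fin q → ℂ) (a : ℕ → Finset E) (δ : ℕ → ℕ) : Prop :=
  ∀ x : E → ℂ, (∀ J, ∀ n ∈ a J, Complex.exp (x n) = val n) → ∀ j₀ D : ℕ, (∀ J, j₀ ≤ J → D ≤ δ J) →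
    ∀ K : IntermediateField ℚ ℂ, FiniteDimensional ℚ K → finrank ℚ K ≤ D →
    ∀ P : MvPolynomial (Fin q ⊕ E) K, P.totalDegree ≤ D → (∀ n, Sum.inr n ∈ P.vars → ∃ J, n ∈ a J) →
      aeval (Sum.elim w x) P = 0 → ∀ y : E → ℂ, (∀ J < j₀, ∀ n ∈ a J, y n = x n) → aeval (Sum.elim w y) P = 0

/-- the set of the `r` consecutive primes number `k, …, k + r - 1` -/
noncomputable def run (k r : ℕ) : Finset ℕ := (Finset.range r).image fun i => Nat.nth Nat.Prime (k + i)

/-- algebraic numbers -/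
theorem algebraic (q d m A : ℕ) (b : ℕ → ℕ) : ∃ C : ℕ → ℕ, ∀ (ξ : ℕ → ℂ) (H δ : ℕ → ℕ),
    (∀ J, IsBounded m (‖ξ J‖ ^ A) (ξ J) ∧ ((H J : ℝ) + 2) ^ ((δ J + 2) ^ C J) ≤ ‖ξ J‖) → ∀ B : ℕ → Finset ℂ,
    (∀ J, (B J).card = b J ∧ ∀ α ∈ B J, α ≠ ξ J ∧ IsBounded d (H J) (α - ξ J)) → ∀ w : Fin q → ℂ,
    ∃ a : ℕ → Finset ℂ, (∀ J, a J ⊆ B J ∧ b J ≤ (a J).card + (q + 3 + ∑ i ∈ Finset.range J, b i)) ∧
      Free id w a δ := by
  classical
  set r : ℕ → ℕ := fun J => b J - (q + 3 + ∑ i ∈ Finset.range J, b i) with hr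
  obtain ⟨C, hC⟩ := Pool.Agent.Run7.h643.IS.inf_logs (E := ℂ) id Function.injective_id d m A q r
  refine ⟨C, fun ξ H δ hξ B hB w => ?_⟩
  obtain ⟨a, ha1, ha2⟩ := hC ξ H δ (fun J s => s ⊆ B J) hξ (fun J S hS => by
    have h1 : ∑ i ∈ Finset.range J, r i ≤ ∑ i ∈ Finset.range J, b i := Finset.sum_le_sum fun i _ => Nat.sub_le _ _
    have h2 : r J ≤ (B J \ S).card := by
      have h3 := Finset.le_card_sdiff S (B J)
      rw [(hB J).1] at h3
      have h4 : r J = b J - (q + 3 + ∑ i ∈ Finset.range J, b i) := rfl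
      omega
    obtain ⟨s, hs1, hs2⟩ := Finset.exists_subset_card_eq h2
    refine ⟨s, fun n hn => (Finset.mem_sdiff.1 (hs1 hn)).1, hs2, fun n hn => ?_⟩
    have h5 := Finset.mem_sdiff.1 (hs1 hn)
    obtain ⟨h6, p, hp0, hpd, hpc, hpz⟩ := (hB J).2 n h5.1
    exact ⟨⟨sub_ne_zero.2 h6, p, hp0, hpd, fun l => by exact_mod_cast hpc l, hpz⟩, h5.2⟩) w
  refine ⟨a, fun J => ⟨(ha1 J).1, ?_⟩, ha2⟩
  have h1 := (ha1 J).2
  have h4 : r J = b J - (q + 3 + ∑ i ∈ Finset.range J, b i) := rfl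
  omega

/-- runs of consecutive primes -/
theorem primes (q : ℕ) (r : ℕ → ℕ) : ∃ (C L : ℕ → ℕ) (M : ℕ → Set ℕ), (∀ J, (M J).Infinite) ∧ ∀ N δ : ℕ → ℕ,
    (∀ J, N J ∈ M J ∧ (L J + 2) ^ ((δ J + 2) ^ C J) ≤ N J) → ∀ w : Fin q → ℂ, ∃ k : ℕ → ℕ,
      (∀ J, ∀ p ∈ run (k J) (r J), N J < p ∧ p ≤ N J + L J) ∧
      Free (fun n : ℕ => (n : ℂ)) w (fun J => run (k J) (r J)) δ := by
  classical
  obtain ⟨C, hC⟩ := Pool.Agent.Run7.h643.IS.inf_logs (fun n : ℕ => (n : ℂ)) Nat.cast_injective 1 1 1 q r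
  choose L M hM hLM using fun J : ℕ => Pool.Agent.Run7.h643.IS.run_set (r J) (q + 3 + ∑ i ∈ Finset.range J, r i)
  refine ⟨C, L, M, hM, fun N δ hN w => ?_⟩
  obtain ⟨a, ha1, ha2⟩ := hC (fun J => (N J : ℂ)) L δ
    (fun J A => (∃ k, A = run k (r J)) ∧ ∀ p ∈ A, N J < p ∧ p ≤ N J + L J) (fun J => by
    have h1 : 1 ≤ N J := (Nat.one_le_pow _ _ (by omega)).trans (hN J).2
    refine ⟨Pool.Agent.R351.GD.ht_nat h1, ?_⟩
    rw [Complex.norm_natCast]
    exact_mod_cast (hN J).2) (fun J S hS => by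
    obtain ⟨k, hk⟩ := hLM J (N J) (hN J).1 S hS
    have hrun : ∀ p ∈ run k (r J), N J < p ∧ p ≤ N J + L J ∧ p ∉ S := fun p hp => by
      obtain ⟨i, hi, rfl⟩ := Finset.mem_image.1 hp
      exact hk i (Finset.mem_range.1 hi)
    refine ⟨run k (r J), ⟨⟨k, rfl⟩, fun p hp => ⟨(hrun p hp).1, (hrun p hp).2.1⟩⟩, ?_, fun n hn => ⟨⟨?_, ?_⟩, (hrun n hn).2.2⟩⟩
    · rw [run, Finset.card_image_of_injective, Finset.card_range]
      intro i i' hii
      have h1 := Nat.nth_injective Nat.infinite_setOfPred_prime hii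
      omega
    · have h1 := (hrun n hn).1
      show (n : ℂ) - (N J : ℂ) ≠ 0
      rw [sub_ne_zero]
      exact_mod_cast (show n ≠ N J by omega)
    · have h1 := hrun n hn
      have h3 := Pool.Agent.R351.GD.adm_int (d := 1) (H := L J) le_rfl (b := (n : ℤ) - (N J : ℤ)) (by omega) (by
          rw [abs_of_nonneg (by omega)]
          have := h1.2.1
          omega)
      show Pool.Agent.Y916.Ari.Adm 1 (L J) ((n : ℂ) - (N J : ℂ))
      simpa using h3) w
  choose k hk using fun J => (ha1 J).1.1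
  refine ⟨k, fun J p hp => (ha1 J).1.2 p (by rw [hk J]; exact hp), ?_⟩
  have h1 : (fun J => run (k J) (r J)) = a := funext fun J => (hk J).symm
  rw [h1]
  exact ha2

/-- **Main theorem.** -/
theorem result :
    (∀ d : ℕ, ∃ B : Set ℕ, (∀ p ∈ B, p.Prime) ∧ (∀ r : ℕ, ∃ k : ℕ, ∀ i < r, Nat.nth Nat.Prime (k + i) ∈ B) ∧
      ∀ K : IntermediateField ℚ ℂ, FiniteDimensional ℚ K → finrank ℚ K ≤ d →
      ∀ P : MvPolynomial ℕ K, P ≠ 0 → P.totalDegree ≤ d → (∀ p ∈ P.vars, p ∈ B) →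
        ∀ x : ℕ → ℂ, (∀ p ∈ B, Complex.exp (x p) = p) → aeval x P ≠ 0) ∧
    (∀ (q d m A : ℕ) (b : ℕ → ℕ), ∃ C : ℕ → ℕ, ∀ (ξ : ℕ → ℂ) (H δ : ℕ → ℕ),
      (∀ J, IsBounded m (‖ξ J‖ ^ A) (ξ J) ∧ ((H J : ℝ) + 2) ^ ((δ J + 2) ^ C J) ≤ ‖ξ J‖) → ∀ B : ℕ → Finset ℂ,
      (∀ J, (B J).card = b J ∧ ∀ α ∈ B J, α ≠ ξ J ∧ IsBounded d (H J) (α - ξ J)) → ∀ w : Fin q → ℂ,
      ∃ a : ℕ → Finset ℂ, (∀ J, a J ⊆ B J ∧ b J ≤ (a J).card + (q + 3 + ∑ i ∈ Finset.range J, b i)) ∧
        Free id w a δ) ∧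
    (∀ (q : ℕ) (r : ℕ → ℕ), ∃ (C L : ℕ → ℕ) (M : ℕ → Set ℕ), (∀ J, (M J).Infinite) ∧ ∀ N δ : ℕ → ℕ,
      (∀ J, N J ∈ M J ∧ (L J + 2) ^ ((δ J + 2) ^ C J) ≤ N J) → ∀ w : Fin q → ℂ, ∃ k : ℕ → ℕ,
        (∀ J, ∀ p ∈ run (k J) (r J), N J < p ∧ p ≤ N J + L J) ∧
        Free (fun n : ℕ => (n : ℂ)) w (fun J => run (k J) (r J)) δ) := by
  classical
  refine ⟨fun d => ?_, algebraic, primes⟩
  obtain ⟨C, L, M, hM, h⟩ := primes 0 fun J => J
  have hN : ∀ J, ∃ N, N ∈ M J ∧ (L J + 2) ^ ((d + 2) ^ C J) ≤ N := fun J => by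
    obtain ⟨N, h1, h2⟩ := (hM J).exists_gt ((L J + 2) ^ ((d + 2) ^ C J))
    exact ⟨N, h1, h2.le⟩
  choose N hN using hN
  obtain ⟨k, hk1, hk2⟩ := h N (fun _ => d) hN Fin.elim0
  refine ⟨{p | ∃ J, p ∈ run (k J) J}, ?_, fun r => ⟨k r, fun i hi => ⟨r, ?_⟩⟩, ?_⟩
  · rintro p ⟨J, hJ⟩
    obtain ⟨i, -, rfl⟩ := Finset.mem_image.1 hJ
    exact Nat.prime_nth_prime _
  · exact Finset.mem_image.2 ⟨i, Finset.mem_range.2 hi, rfl⟩
  · intro K hK hKd P hP0 hPd hPv x hx hP
    apply hP0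
    have h1 := hk2 x (fun J n hn => hx n ⟨J, hn⟩) 0 d (fun _ _ => le_rfl) K hK hKd (rename Sum.inr P)
      ((totalDegree_rename_le _ _).trans hPd) (fun n hn => by
        obtain ⟨i, hi, h3⟩ := Finset.mem_image.1 (vars_rename _ P hn)
        rw [← Sum.inr.inj h3]
        exact hPv i hi) (by
        rw [aeval_rename, ← hP]
        rfl)
    have h2 : MvPolynomial.map (algebraMap K ℂ) P = 0 := by
      apply MvPolynomial.funext
      intro y
      have h3 := h1 y (fun J hJ => absurd hJ (Nat.not_lt_zero J))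
      rw [aeval_rename] at h3
      rw [map_zero, eval_map, ← aeval_def]
      exact h3
    exact MvPolynomial.map_injective _ (algebraMap K ℂ).injective (by rw [h2, map_zero])

end Pool.Agent.Results.MP_60829e_nt.InfiniteSetsOfPrimes
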