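import Pool.Agent.Run7.h788.RandFree
import Pool.Agent.R350.Inst

/-!
# Random combinations of logarithms: exponentially few have an algebraic relation

Let `ℚ̄` be the field of algebraic numbers, and for ARBITRARY complex numbers `γ_1, …, γ_g` let `𝓛(γ)` be
the space of all linear combinations, with algebraic coefficients, of `1`, of `γ_1, …, γ_g` and of
arbitrary logarithms of algebraic numbers.  Let `W` be a `ℚ̄`-space of dimension at most `m` of arbitrary
complex numbers.  There is a space `F ⊆ 𝓛(γ)` of bounded dimension, which depends only on `W` and `γ`, and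
`F = ℚ̄` for `W = ℚ̄`, with the following property.

For every `j ≤ n` let `λ_{j,1}, …, λ_{j,k}` be arbitrary elements of `𝓛(γ)` which are linearly
independent over `ℚ̄`; for instance, by the theorem of Baker, any logarithms of algebraic numbers which
are linearly independent over `ℚ` (for different `j` they may be the same).  Let `ζ_j` be an arbitrary
element of `𝓛(γ)`, for instance `0` or `γ_j`.  For a matrix `a = (a_{j,i})` with entries in a finite set
`X` of rational numbers, for instance `{0, 1}`, let

  `y_j = ζ_j + ∑_i a_{j,i} λ_{j,i}`.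

Then for all but `C |X| ^ (n k - δ k)` of the `|X| ^ (n k)` matrices `a` the `y_j` are linearly
independent over `ℚ̄` modulo `F`, and if `l_1, …, l_s` are ARBITRARY elements of `𝓛(γ)` (any number of
them, chosen after `a`, for instance logarithms of algebraic numbers), linearly independent over `ℚ̄`
modulo `F` and the `y_j`, then no nonzero polynomial `P (X, Y)` with coefficients in `W`, of degree at
most `D` in every `X_j` and of total degree at most `1` in the `Y_j`, vanishes at `(y, l)`.  Here
`k ≥ k₀`, and `k₀`, `C` and `δ > 0` depend only on `n`, `D`, `m`, `g`, but not on `λ`, `ζ`, `γ`, `W` and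
`X`.

For `g = 0`, `ζ = 0`, `W = ℚ̄` and `X = {0, 1}` this says in particular: the logarithms of `n` random
products of `k` given multiplicatively independent algebraic numbers satisfy no relation of degree at
most `D` over the field of algebraic numbers, and no relation of such a degree which contains in addition
arbitrary further logarithms linearly, with coefficients which are polynomials in the `n` given ones; the
exceptions are exponentially few in `k`.

Known before (starting files): logarithms of integers with the saving `(log log x) ^ C / log x`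
(`LinearInArbitraryLogs`), and the random combinations for relations over `ℚ̄` (coefficients in a fixed
field without relations of small degree) whose additional logarithms occur with constant coefficients
(`RandomOnlyLinear`).

The proof.  By the hyperplane case of the linear subgroup theorem of Waldschmidt and Roy every cube in
sufficiently many linearly independent directions contains a point which has only formal relations
(`Pool.Agent.R350.PD_all`).  So the exceptional parameters contain no nondegenerate cube, and an iterated
Cauchy-Schwarz inequality (`Pool.Agent.Y918.OL.cube_count`) shows that they are exponentially rare.  The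
induction on `n` is in `Pool.Agent.Run7.h788.RandFree`.
-/

set_option autoImplicit false

namespace Pool.Agent.Results.MP_60829e_nt.RandomCombinations

open Module MvPolynomial

/-- the linear combinations, with algebraic coefficients, of `1`, of the numbers `γ i` and of arbitrary
logarithms of algebraic numbers -/
noncomputable def LogForms {g : ℕ} (γ : Fin g → ℂ) : Submodule (algebraicClosure ℚ ℂ) ℂ :=
  Submodule.span (algebraicClosure ℚ ℂ)
    (({1} ∪ {z : ℂ | IsAlgebraic ℚ (Complex.exp z)}) ∪ Set.range γ)

/-- `y` is independent modulo `F` and has no relation with coefficients in `W`, of degree at most `D`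
in `y`, which is linear in elements of `V` independent modulo `F` and `y` -/
def NoRelation (V W F : Submodule (algebraicClosure ℚ ℂ) ℂ) (D : ℕ) {n : ℕ} (y : Fin n → ℂ) : Prop :=
  (∀ c : Fin n → algebraicClosure ℚ ℂ, ∑ i, c i • y i ∈ F → ∀ i, c i = 0) ∧
  ∀ (s : ℕ) (l : Fin s → ℂ), (∀ j, l j ∈ V) →
    (∀ c : Fin s → algebraicClosure ℚ ℂ, ∑ j, c j • l j ∈
      F ⊔ Submodule.span (algebraicClosure ℚ ℂ) (Set.range y) → ∀ j, c j = 0) →
    ∀ P : MvPolynomial (Fin n ⊕ Fin s) ℂ, (∀ β, P.coeff β ∈ W) →
      (∀ i, P.degreeOf (Sum.inl i) ≤ D) → (∀ β ∈ P.support, ∑ j, β (Sum.inr j) ≤ 1) →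
      eval (Sum.elim y l) P = 0 → P = 0

open Classical in
/-- **Main result.** -/
theorem result (n D m g : ℕ) : ∃ (k₀ C : ℕ) (δ : ℝ), 0 < δ ∧ ∀ γ : Fin g → ℂ,
    ∀ W : Submodule (algebraicClosure ℚ ℂ) ℂ, Module.Finite (algebraicClosure ℚ ℂ) W →
    finrank (algebraicClosure ℚ ℂ) W ≤ m →
    ∃ F : Submodule (algebraicClosure ℚ ℂ) ℂ,
      Module.Finite (algebraicClosure ℚ ℂ) F ∧
      finrank (algebraicClosure ℚ ℂ) F ≤ C ∧ F ≤ LogForms γ ∧
      (W ≤ Submodule.span (algebraicClosure ℚ ℂ) {(1 : ℂ)} →
        F = Submodule.span (algebraicClosure ℚ ℂ) {(1 : ℂ)}) ∧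
      ∀ k ≥ k₀, ∀ lam : Fin n → Fin k → ℂ, (∀ j i, lam j i ∈ LogForms γ) →
        (∀ j, LinearIndependent (algebraicClosure ℚ ℂ) (lam j)) →
        ∀ ζ : Fin n → ℂ, (∀ j, ζ j ∈ LogForms γ) →
        ∀ X : Finset ℚ, X.Nonempty →
        (((Fintype.piFinset fun _ : Fin n => Fintype.piFinset fun _ : Fin k => X).filter fun a =>
          ¬ NoRelation (LogForms γ) W F D
            (fun j => ζ j + ∑ i, (a j i : ℂ) * lam j i)).card : ℝ) ≤
          C * (X.card : ℝ) ^ ((n * k : ℝ) - δ * k) := by
  obtain ⟨k₀, C, δ, hδ, h⟩ := Run7.h788.rand_lin D n m (0 + g)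
  refine ⟨k₀, C + ((m + 1) * (m + 1 + (0 + g)) * (m + 1) + 1), δ, hδ, fun γ W hWf hWm => ?_⟩
  have hS := Pool.Agent.R350.setup_complex
  have heq : LogForms γ = Pool.Agent.H301R2.SSE.Lt ⊔
      Submodule.span (algebraicClosure ℚ ℂ) (Set.range γ) := by
    rw [LogForms, Submodule.span_union]
    rfl
  have hfin : FiniteDimensional (algebraicClosure ℚ ℂ)
      (Submodule.span (algebraicClosure ℚ ℂ) (Set.range γ)) :=
    FiniteDimensional.span_of_finite _ (Set.finite_range γ)
  have hrk : finrank (algebraicClosure ℚ ℂ)
      (Submodule.span (algebraicClosure ℚ ℂ) (Set.range γ)) ≤ g := by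
    have := finrank_range_le_card (R := algebraicClosure ℚ ℂ) γ
    rwa [Fintype.card_fin] at this
  have hyp : Pool.Agent.R350.HypV (0 + g) (LogForms γ) := by
    rw [heq]
    exact hS.hyp.sup _ hrk
  have h1L : (1 : ℂ) ∈ LogForms γ := by
    rw [heq]
    exact Submodule.mem_sup_left hS.one
  obtain ⟨h1, h2, h3, h4⟩ := Pool.Agent.R350.exSp_bound hyp h1L W hWm
  refine ⟨Pool.Agent.R350.exSp (LogForms γ) W, h1, h2.trans (by omega), h3, h4,
    fun k hk lam hlam hli ζ hζ X hX => ?_⟩
  have h5 := h k hk (algebraicClosure ℚ ℂ) ℂ (LogForms γ) hyp h1L W hWf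
    hWm lam hlam hli X hX ζ hζ
  refine le_trans (le_trans (le_of_eq ?_) h5) ?_
  · congr 2
  · apply mul_le_mul_of_nonneg_right _ (Real.rpow_nonneg (Nat.cast_nonneg _) _)
    exact_mod_cast Nat.le_add_right C _

end Pool.Agent.Results.MP_60829e_nt.RandomCombinations
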